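import Pool.Agent.H29.CM.CbD

/-!
# Riemann-Roch for function fields over `ℂ`

Adeles, Weil differentials, the canonical divisor: there is a divisor `W` with
`ell (W - D) = g - 1 - deg D + ell D` for every divisor `D`.
-/

namespace Pool.H24.RR

open Pool.H29.BN Pool.H29.CB Module

noncomputable section

variable {F : Type} [Field F] [Algebra ℂ F] {g : ℕ}

/-- the adeles with `ord_P (a_P) + D(P) ≥ 0` for all `P` -/
def AD (D : Dv F) : Submodule ℂ (Pt F → F) where
  carrier := {a | ∀ P : Pt F, a P ≠ 0 → 0 ≤ P.ord (a P) + D P}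
  add_mem' := by
    intro a b ha hb P hab
    have h := P.le_ord_add (x := a P) (y := b P) (-(D P)) hab
      (fun h => by have := ha P h; linarith) (fun h => by have := hb P h; linarith)
    have h2 : (a + b) P = a P + b P := rfl
    rw [h2]
    linarith
  zero_mem' := by
    intro P h
    exact absurd rfl h
  smul_mem' := by
    intro c a ha P hca
    have h2 : (c • a) P = algebraMap ℂ F c * a P := by
      rw [Pi.smul_apply, Algebra.smul_def]
    rw [h2] at hca ⊢
    have h1 : algebraMap ℂ F c ≠ 0 := left_ne_zero_of_mul hca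
    have h3 : c ≠ 0 := fun h => h1 (by rw [h, map_zero])
    rw [P.ord_const_mul h3]
    exact ha P (right_ne_zero_of_mul hca)

theorem mem_AD {D : Dv F} {a : Pt F → F} :
    a ∈ AD D ↔ ∀ P : Pt F, a P ≠ 0 → 0 ≤ P.ord (a P) + D P := Iff.rfl

theorem AD_mono {A B : Dv F} (h : A ≤ B) : AD A ≤ AD B := by
  intro a ha P h0
  have h1 := ha P h0
  have h2 := h P
  linarith

/-- all adeles -/
def Adl (F : Type) [Field F] [Algebra ℂ F] : Submodule ℂ (Pt F → F) where
  carrier := {a | ∃ D : Dv F, a ∈ AD D}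
  add_mem' := by
    rintro a b ⟨D, hD⟩ ⟨E, hE⟩
    exact ⟨D ⊔ E, Submodule.add_mem _ (AD_mono le_sup_left hD) (AD_mono le_sup_right hE)⟩
  zero_mem' := ⟨0, Submodule.zero_mem _⟩
  smul_mem' := by
    rintro c a ⟨D, hD⟩
    exact ⟨D, Submodule.smul_mem _ _ hD⟩

/-- the diagonal embedding -/
def dg : F →ₗ[ℂ] (Pt F → F) where
  toFun f := fun _ => f
  map_add' _ _ := rfl
  map_smul' _ _ := rfl

theorem dg_mem {D : Dv F} {f : F} : dg f ∈ AD D ↔ f ∈ LL D :=
  ⟨fun h h0 P => h P h0, fun h P h0 => h h0 P⟩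

/-- `A(D) + F` -/
def WW (D : Dv F) : Submodule ℂ (Pt F → F) := AD D ⊔ LinearMap.range (dg (F := F))

theorem mem_WW {D : Dv F} {a : Pt F → F} : a ∈ WW D ↔ ∃ b ∈ AD D, ∃ f : F, a = b + dg f := by
  unfold WW
  rw [Submodule.mem_sup]
  constructor
  · rintro ⟨b, hb, c, ⟨f, rfl⟩, rfl⟩
    exact ⟨b, hb, f, rfl⟩
  · rintro ⟨b, hb, f, rfl⟩
    exact ⟨b, hb, dg f, ⟨f, rfl⟩, rfl⟩

theorem WW_mono {A B : Dv F} (h : A ≤ B) : WW A ≤ WW B := sup_le_sup_right (AD_mono h) _

/-- the adele supported at one point -/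
theorem exists_e (hF : IsFF F) (D : Dv F) (P : Pt F) :
    ∃ e : Pt F → F, e ∈ AD (D + Finsupp.single P 1) ∧ e ∉ AD D ∧
      ∀ a ∈ AD (D + Finsupp.single P 1), ∃ c : ℂ, a - c • e ∈ AD D := by
  classical
  obtain ⟨t, ht0, ht⟩ := P.ord_unif
  have hu0 : t ^ (-(D P + 1)) ≠ 0 := zpow_ne_zero _ ht0
  have hu : P.ord (t ^ (-(D P + 1))) = -(D P + 1) := by
    rw [fip_zpow, ht, mul_one]
  refine ⟨Pi.single P (t ^ (-(D P + 1))), ?_, ?_, ?_⟩
  · intro Q hQ
    by_cases h : Q = P
    · subst h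
      rw [Pi.single_eq_same, hu, Finsupp.add_apply, Finsupp.single_eq_same]
      linarith
    · rw [Pi.single_eq_of_ne h] at hQ
      exact absurd rfl hQ
  · intro h
    have h1 := h P (by rw [Pi.single_eq_same]; exact hu0)
    rw [Pi.single_eq_same, hu] at h1
    linarith
  · intro a ha
    by_cases haP : a P = 0
    · refine ⟨0, ?_⟩
      rw [zero_smul, sub_zero]
      intro Q hQ
      have h1 := ha Q hQ
      by_cases h : Q = P
      · subst h
        exact absurd haP hQ
      · rwa [Finsupp.add_apply, Finsupp.single_eq_of_ne h, add_zero] at h1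
    · have h1 := ha P haP
      rw [Finsupp.add_apply, Finsupp.single_eq_same] at h1
      have h2 : 0 ≤ P.ord (a P / t ^ (-(D P + 1))) := by
        rw [P.ord_div haP hu0, hu]
        linarith
      obtain ⟨c, hc⟩ := P.residue hF _ h2
      refine ⟨c, ?_⟩
      intro Q hQ
      by_cases h : Q = P
      · subst h
        have h3 : (a - c • (Pi.single Q (t ^ (-(D Q + 1))) : Pt F → F)) Q =
            t ^ (-(D Q + 1)) * (a Q / t ^ (-(D Q + 1)) - algebraMap ℂ F c) := by
          rw [Pi.sub_apply, Pi.smul_apply, Pi.single_eq_same, Algebra.smul_def]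
          field_simp
        rw [h3] at hQ ⊢
        have h4 : a Q / t ^ (-(D Q + 1)) - algebraMap ℂ F c ≠ 0 := right_ne_zero_of_mul hQ
        rcases hc with hc | hc
        · exact absurd (sub_eq_zero.mpr hc) h4
        · rw [Q.ord_mul _ _ hu0 h4, hu]
          linarith
      · have h3 : (a - c • (Pi.single P (t ^ (-(D P + 1))) : Pt F → F)) Q = a Q := by
          rw [Pi.sub_apply, Pi.smul_apply, Pi.single_eq_of_ne h, smul_zero, sub_zero]
        rw [h3] at hQ ⊢
        have h4 := ha Q hQ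
        rwa [Finsupp.add_apply, Finsupp.single_eq_of_ne h, add_zero] at h4

/-- inside the adeles -/
def WQ (D : Dv F) : Submodule ℂ (Adl F) := (WW D).comap (Adl F).subtype

theorem mem_WQ {D : Dv F} {a : Adl F} : a ∈ WQ D ↔ (a : Pt F → F) ∈ WW D := Iff.rfl

theorem WQ_mono {A B : Dv F} (h : A ≤ B) : WQ A ≤ WQ B := fun _ ha => WW_mono h ha

/-- case (a): the space `L(D)` grows -/
theorem WQ_step_a (hF : IsFF F) (D : Dv F) (P : Pt F)
    (h : ¬ LL (D + Finsupp.single P 1) ≤ LL D) : WQ (D + Finsupp.single P 1) ≤ WQ D := by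
  obtain ⟨e, he1, he2, he3⟩ := exists_e hF D P
  obtain ⟨f, hf1, hf2⟩ := SetLike.not_le_iff_exists.mp h
  obtain ⟨c, hc⟩ := he3 (dg f) (dg_mem.mpr hf1)
  have hc0 : c ≠ 0 := by
    rintro rfl
    rw [zero_smul, sub_zero] at hc
    exact hf2 (dg_mem.mp hc)
  have heW : e ∈ WW D := by
    have h1 : e = c⁻¹ • (dg f - (dg f - c • e)) := by
      rw [sub_sub_cancel, smul_smul, inv_mul_cancel₀ hc0, one_smul]
    rw [h1]
    apply Submodule.smul_mem
    apply Submodule.sub_mem
    · exact Submodule.mem_sup_right ⟨f, rfl⟩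
    · exact Submodule.mem_sup_left hc
  intro a ha
  rw [mem_WQ] at ha ⊢
  obtain ⟨b, hb, k, hbk⟩ := mem_WW.mp ha
  obtain ⟨c', hc'⟩ := he3 b hb
  rw [hbk]
  apply Submodule.add_mem
  · have h1 : b = (b - c' • e) + c' • e := by rw [sub_add_cancel]
    rw [h1]
    exact Submodule.add_mem _ (Submodule.mem_sup_left hc') (Submodule.smul_mem _ _ heW)
  · exact Submodule.mem_sup_right ⟨k, rfl⟩

/-- case (b): the space `L(D)` does not grow -/
theorem WQ_step_b (hF : IsFF F) (D : Dv F) (P : Pt F)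
    (h : LL (D + Finsupp.single P 1) ≤ LL D) :
    ∃ e : Adl F, e ∉ WQ D ∧ WQ (D + Finsupp.single P 1) = WQ D ⊔ Submodule.span ℂ {e} := by
  obtain ⟨e, he1, he2, he3⟩ := exists_e hF D P
  have hle : D ≤ D + Finsupp.single P 1 :=
    le_add_of_nonneg_right (Finsupp.single_nonneg.mpr (by norm_num))
  refine ⟨⟨e, _, he1⟩, ?_, ?_⟩
  · intro he
    rw [mem_WQ] at he
    obtain ⟨b, hb, f, hbf⟩ := mem_WW.mp he
    simp only at hbf
    have h1 : dg f ∈ AD (D + Finsupp.single P 1) := by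
      have h2 : dg f = e - b := by rw [hbf, add_sub_cancel_left]
      rw [h2]
      exact Submodule.sub_mem _ he1 (AD_mono hle hb)
    have h2 : dg f ∈ AD D := dg_mem.mpr (h (dg_mem.mp h1))
    apply he2
    rw [hbf]
    exact Submodule.add_mem _ hb h2
  · apply le_antisymm
    · intro a ha
      rw [mem_WQ] at ha
      obtain ⟨b, hb, k, hbk⟩ := mem_WW.mp ha
      obtain ⟨c', hc'⟩ := he3 b hb
      rw [Submodule.mem_sup]
      refine ⟨a - c' • ⟨e, _, he1⟩, ?_, c' • ⟨e, _, he1⟩,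
        Submodule.smul_mem _ _ (Submodule.mem_span_singleton_self _), by rw [sub_add_cancel]⟩
      rw [mem_WQ]
      have h1 : ((a - c' • (⟨e, _, he1⟩ : Adl F) : Adl F) : Pt F → F) = (b - c' • e) + dg k := by
        rw [AddSubgroupClass.coe_sub, Submodule.coe_smul, hbk]
        abel
      rw [h1]
      exact Submodule.add_mem _ (Submodule.mem_sup_left hc') (Submodule.mem_sup_right ⟨k, rfl⟩)
    · apply sup_le (WQ_mono hle)
      rw [Submodule.span_singleton_le_iff_mem, mem_WQ]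
      exact Submodule.mem_sup_left he1

/-- linear algebra -/
theorem quot_step {V : Type*} [AddCommGroup V] [Module ℂ V] (W W' : Submodule ℂ V) (e : V)
    (he : e ∉ W) (hW : W' = W ⊔ Submodule.span ℂ {e}) (hfin : Module.Finite ℂ (V ⧸ W')) :
    Module.Finite ℂ (V ⧸ W) ∧ finrank ℂ (V ⧸ W) = finrank ℂ (V ⧸ W') + 1 := by
  have hle : W ≤ W' := by rw [hW]; exact le_sup_left
  have hmap : W'.map W.mkQ = Submodule.span ℂ {W.mkQ e} := by
    rw [hW, Submodule.map_sup, Submodule.map_span, Set.image_singleton]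
    rw [Submodule.mkQ_map_self, bot_sup_eq]
  have e1 : ((V ⧸ W) ⧸ (W'.map W.mkQ)) ≃ₗ[ℂ] (V ⧸ W') :=
    Submodule.quotientQuotientEquivQuotient W W' hle
  have hne : W.mkQ e ≠ 0 := by
    intro h
    rw [Submodule.mkQ_apply, Submodule.Quotient.mk_eq_zero] at h
    exact he h
  have h1 : Module.Finite ℂ (W'.map W.mkQ) := by
    rw [hmap]
    exact FiniteDimensional.span_singleton ℂ _
  have h2 : Module.Finite ℂ ((V ⧸ W) ⧸ (W'.map W.mkQ)) := Module.Finite.equiv e1.symm
  have h3 : Module.Finite ℂ (V ⧸ W) := Module.Finite.of_submodule_quotient (W'.map W.mkQ)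
  refine ⟨h3, ?_⟩
  have h4 := Submodule.finrank_quotient_add_finrank (W'.map W.mkQ)
  rw [← h4, LinearEquiv.finrank_eq e1, hmap, finrank_span_singleton hne]

theorem exists_lsum {A B : Dv F} (h : A ≤ B) : ∃ l : List (Pt F), B = A + lsum l := by
  obtain ⟨l, hl⟩ := exists_list (sub_nonneg.mpr h)
  exact ⟨l, by rw [hl]; abel⟩

theorem ell_step (hF : IsFF F) (hg : IsGenus F g) (P0 : Pt F) (D : Dv F) (P : Pt F) :
    (LL (D + Finsupp.single P 1) ≤ LL D ∧ ell (D + Finsupp.single P 1) = ell D) ∨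
    (¬ LL (D + Finsupp.single P 1) ≤ LL D ∧ ell (D + Finsupp.single P 1) = ell D + 1) := by
  have hle : D ≤ D + Finsupp.single P 1 :=
    le_add_of_nonneg_right (Finsupp.single_nonneg.mpr (by norm_num))
  have h1 := (step hF D P (fin_of_genus hg P0 D)).2
  have := fin_of_genus hg P0 D
  have := fin_of_genus hg P0 (D + Finsupp.single P 1)
  by_cases h : LL (D + Finsupp.single P 1) ≤ LL D
  · left
    refine ⟨h, le_antisymm (Submodule.finrank_mono h) (Submodule.finrank_mono (LL_mono hle))⟩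
  · right
    refine ⟨h, le_antisymm h1 ?_⟩
    have h2 : LL D < LL (D + Finsupp.single P 1) :=
      lt_of_le_of_ne (LL_mono hle) (fun h3 => h (h3 ▸ le_rfl))
    exact Submodule.finrank_lt_finrank_of_lt h2

/-- above a divisor with `ell = deg + 1 - g` the quotient vanishes -/
theorem WQ_top (hF : IsFF F) (hg : IsGenus F g) (P0 : Pt F) {D0 : Dv F}
    (hD0 : deg D0 + 1 - g = ell D0) {D : Dv F} (hD : D0 ≤ D) : WQ D = ⊤ := by
  have hbig : ∀ E : Dv F, D0 ≤ E → deg E + 1 - g = ell E := by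
    intro E hE
    have h1 := (ell_le hF hE (fin_of_genus hg P0 D0)).2
    have h2 := hg.1 E
    rw [deg_sub] at h1
    linarith
  have key : ∀ (l : List (Pt F)) (E : Dv F), D0 ≤ E → WQ (E + lsum l) ≤ WQ E := by
    intro l
    induction l with
    | nil => intro E _; rw [lsum_nil, add_zero]
    | cons P l ih =>
      intro E hE
      have hE' : D0 ≤ E + Finsupp.single P 1 :=
        hE.trans (le_add_of_nonneg_right (Finsupp.single_nonneg.mpr (by norm_num)))
      have h1 := ih (E + Finsupp.single P 1) hE'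
      rw [lsum_cons, ← add_assoc]
      refine h1.trans ?_
      rcases ell_step hF hg P0 E P with h2 | h2
      · exfalso
        have h3 := hbig _ hE'
        have h4 := hbig _ hE
        rw [deg_add, deg_single, h2.2] at h3
        linarith
      · exact WQ_step_a hF E P h2.1
  rw [eq_top_iff]
  rintro ⟨a, E, hE⟩ -
  obtain ⟨l, hl⟩ := exists_lsum (le_sup_left : D ≤ D ⊔ E)
  apply key l D hD
  rw [← hl, mem_WQ]
  exact Submodule.mem_sup_left (AD_mono le_sup_right hE)

theorem fin_i (hF : IsFF F) (hg : IsGenus F g) (P0 : Pt F) (D : Dv F) :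
    Module.Finite ℂ (Adl F ⧸ WQ D) ∧
      (finrank ℂ (Adl F ⧸ WQ D) : ℤ) = g - 1 - deg D + ell D := by
  obtain ⟨D0, hD0⟩ := hg.2
  obtain ⟨l, hl⟩ := exists_lsum (le_sup_left : D ≤ D ⊔ D0)
  have hbase : Module.Finite ℂ (Adl F ⧸ WQ (D ⊔ D0)) ∧
      (finrank ℂ (Adl F ⧸ WQ (D ⊔ D0)) : ℤ) = g - 1 - deg (D ⊔ D0) + ell (D ⊔ D0) := by
    have h1 := WQ_top hF hg P0 hD0 (le_sup_right : D0 ≤ D ⊔ D0)
    have h2 := (ell_le hF (le_sup_right : D0 ≤ D ⊔ D0) (fin_of_genus hg P0 D0)).2
    have h3 := hg.1 (D ⊔ D0)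
    rw [deg_sub] at h2
    rw [h1]
    have : Subsingleton (Adl F ⧸ (⊤ : Submodule ℂ (Adl F))) :=
      Submodule.Quotient.subsingleton_iff.mpr rfl
    refine ⟨inferInstance, ?_⟩
    rw [finrank_zero_of_subsingleton]
    push_cast
    linarith
  rw [hl] at hbase
  clear hl
  induction l generalizing D with
  | nil => rwa [lsum_nil, add_zero] at hbase
  | cons P l ih =>
    rw [lsum_cons, ← add_assoc] at hbase
    obtain ⟨h1, h2⟩ := ih (D + Finsupp.single P 1) hbase
    rw [deg_add, deg_single] at h2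
    rcases ell_step hF hg P0 D P with h3 | h3
    · obtain ⟨e, he, heq⟩ := WQ_step_b hF D P h3.1
      obtain ⟨h4, h5⟩ := quot_step _ _ e he heq h1
      refine ⟨h4, ?_⟩
      rw [h5]
      push_cast
      rw [h2, h3.2]
      ring
    · have h4 : WQ (D + Finsupp.single P 1) = WQ D :=
        le_antisymm (WQ_step_a hF D P h3.1)
          (WQ_mono (le_add_of_nonneg_right (Finsupp.single_nonneg.mpr (by norm_num))))
      rw [h4] at h1 h2
      refine ⟨h1, ?_⟩
      rw [h2, h3.2]
      push_cast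
      ring

end

end Pool.H24.RR
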