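import Pool.Agent.H24.RR.Adl

/-!
# Weil differentials and the Riemann-Roch theorem
-/

namespace Pool.H24.RR

open Pool.H29.BN Pool.H29.CB Module

noncomputable section

variable {F : Type} [Field F] [Algebra ℂ F] {g : ℕ}

/-- principal divisors -/
theorem exists_dv (hF : IsFF F) (hg : IsGenus F g) (P0 : Pt F) {f : F} (hf : f ≠ 0) :
    ∃ E : Dv F, (∀ P : Pt F, E P = P.ord f) ∧ deg E = 0 := by
  obtain ⟨B, _, hB⟩ := fip hF hg f
  obtain ⟨E, _, hE, hdE⟩ := exists_div hg P0 hB hf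
  refine ⟨E - B, fun P => ?_, ?_⟩
  · rw [Finsupp.sub_apply, hE P]
  · rw [deg_sub, hdE]
    ring

theorem mul_mem_AD {f : F} {B D : Dv F} (hf : f ∈ LL B) {a : Pt F → F} (ha : a ∈ AD D) :
    (fun P => f * a P) ∈ AD (D + B) := by
  intro P hP
  have h1 : f ≠ 0 := left_ne_zero_of_mul hP
  have h2 : a P ≠ 0 := right_ne_zero_of_mul hP
  have h3 := hf h1 P
  have h4 := ha P h2
  simp only
  rw [P.ord_mul _ _ h1 h2, Finsupp.add_apply]
  linarith

/-- every function has finitely many poles -/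
def Fin' (F : Type) [Field F] [Algebra ℂ F] : Prop := ∀ f : F, ∃ B : Dv F, f ∈ LL B

theorem fin' (hF : IsFF F) (hg : IsGenus F g) : Fin' F := fun f => by
  obtain ⟨B, _, hB⟩ := fip hF hg f
  exact ⟨B, hB⟩

/-- multiplication by a function on the adeles -/
def mu (H : Fin' F) (f : F) : Adl F →ₗ[ℂ] Adl F where
  toFun a := ⟨fun P => f * a.1 P, by
    obtain ⟨D, hD⟩ := a.2
    obtain ⟨B, hB⟩ := H f
    exact ⟨D + B, mul_mem_AD hB hD⟩⟩
  map_add' a b := by
    apply Subtype.ext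
    funext P
    change f * (a.1 P + b.1 P) = f * a.1 P + f * b.1 P
    ring
  map_smul' c a := by
    apply Subtype.ext
    funext P
    change f * (c • a.1 P) = c • (f * a.1 P)
    rw [mul_smul_comm]

theorem mu_apply (H : Fin' F) (f : F) (a : Adl F) (P : Pt F) : (mu H f a).1 P = f * a.1 P := rfl

theorem mu_mul (H : Fin' F) (f h : F) : mu H (f * h) = mu H f ∘ₗ mu H h := by
  apply LinearMap.ext
  intro a
  apply Subtype.ext
  funext P
  change f * h * a.1 P = f * (h * a.1 P)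
  ring

theorem mu_one (H : Fin' F) : mu H 1 = LinearMap.id := by
  apply LinearMap.ext
  intro a
  apply Subtype.ext
  funext P
  change 1 * a.1 P = a.1 P
  ring

theorem mu_add (H : Fin' F) (f h : F) : mu H (f + h) = mu H f + mu H h := by
  apply LinearMap.ext
  intro a
  apply Subtype.ext
  funext P
  change (f + h) * a.1 P = f * a.1 P + h * a.1 P
  ring

theorem mu_smul (H : Fin' F) (c : ℂ) (f : F) : mu H (c • f) = c • mu H f := by
  apply LinearMap.ext
  intro a
  apply Subtype.ext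
  funext P
  change (c • f) * a.1 P = c • (f * a.1 P)
  rw [smul_mul_assoc]

/-- multiplication and `A(D) + F` -/
theorem mu_mem_WQ (H : Fin' F) {f : F} {B D : Dv F} (hf : f ∈ LL B) {a : Adl F}
    (ha : a ∈ WQ D) : mu H f a ∈ WQ (D + B) := by
  rw [mem_WQ] at ha ⊢
  obtain ⟨b, hb, k, hbk⟩ := mem_WW.mp ha
  rw [mem_WW]
  refine ⟨_, mul_mem_AD hf hb, f * k, ?_⟩
  funext P
  rw [mu_apply, hbk]
  change f * (b P + k) = f * b P + f * k
  ring

/-- Weil differentials -/
def Om (D : Dv F) : Submodule ℂ (Dual ℂ (Adl F)) := (WQ D).dualAnnihilator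

theorem mem_Om {D : Dv F} {w : Dual ℂ (Adl F)} : w ∈ Om D ↔ ∀ a ∈ WQ D, w a = 0 :=
  Submodule.mem_dualAnnihilator w

theorem Om_anti {A B : Dv F} (h : A ≤ B) : Om B ≤ Om A := by
  intro w hw
  rw [mem_Om] at hw ⊢
  exact fun a ha => hw a (WQ_mono h ha)

theorem Om_fin (hF : IsFF F) (hg : IsGenus F g) (P0 : Pt F) (D : Dv F) :
    Module.Finite ℂ (Om D) ∧ (finrank ℂ (Om D) : ℤ) = g - 1 - deg D + ell D := by
  obtain ⟨h1, h2⟩ := fin_i hF hg P0 D
  have e := (WQ D).dualQuotEquivDualAnnihilator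
  refine ⟨Module.Finite.equiv e, ?_⟩
  rw [← h2]
  have h3 : finrank ℂ (Dual ℂ (Adl F ⧸ WQ D)) = finrank ℂ (Adl F ⧸ WQ D) :=
    Subspace.dual_finrank_eq
  rw [← h3]
  exact_mod_cast (LinearEquiv.finrank_eq e).symm

theorem mul_mem_Om (H : Fin' F) {f : F} {B D : Dv F} (hf : f ∈ LL B) {w : Dual ℂ (Adl F)}
    (hw : w ∈ Om D) : w ∘ₗ mu H f ∈ Om (D - B) := by
  rw [mem_Om] at hw ⊢
  intro a ha
  have h := mu_mem_WQ H hf ha
  rw [sub_add_cancel] at h
  exact hw _ h

theorem comp_ne (H : Fin' F) {f : F} (hf : f ≠ 0) {w : Dual ℂ (Adl F)}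
    (h : w ∘ₗ mu H f = 0) : w = 0 := by
  have h1 : w = (w ∘ₗ mu H f) ∘ₗ mu H f⁻¹ := by
    rw [LinearMap.comp_assoc, ← mu_mul, mul_inv_cancel₀ hf, mu_one, LinearMap.comp_id]
  rw [h1, h, LinearMap.zero_comp]

/-- `f ↦ f w` -/
def act (H : Fin' F) (B D : Dv F) (w : Dual ℂ (Adl F)) (hw : w ∈ Om D) :
    LL B →ₗ[ℂ] Om (D - B) where
  toFun f := ⟨w ∘ₗ mu H f.1, mul_mem_Om H f.2 hw⟩
  map_add' a b := by
    apply Subtype.ext
    change w ∘ₗ mu H (a.1 + b.1) = w ∘ₗ mu H a.1 + w ∘ₗ mu H b.1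
    rw [mu_add, LinearMap.comp_add]
  map_smul' c a := by
    apply Subtype.ext
    change w ∘ₗ mu H (c • a.1) = c • (w ∘ₗ mu H a.1)
    rw [mu_smul, LinearMap.comp_smul]

theorem act_inj (H : Fin' F) (B D : Dv F) (w : Dual ℂ (Adl F)) (hw : w ∈ Om D) (h0 : w ≠ 0) :
    Function.Injective (act H B D w hw) := by
  rw [← LinearMap.ker_eq_bot, LinearMap.ker_eq_bot']
  intro f hf
  by_contra hne
  have hne' : f.1 ≠ 0 := fun h => hne (Subtype.ext h)
  exact h0 (comp_ne H hne' (congrArg Subtype.val hf))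

theorem ell_le_Om (hF : IsFF F) (hg : IsGenus F g) (P0 : Pt F) {D : Dv F}
    {w : Dual ℂ (Adl F)} (hw : w ∈ Om D) (h0 : w ≠ 0) (B : Dv F) :
    (ell B : ℤ) ≤ g - 1 - deg (D - B) + ell (D - B) := by
  obtain ⟨h1, h2⟩ := Om_fin hF hg P0 (D - B)
  rw [← h2]
  exact_mod_cast LinearMap.finrank_le_finrank_of_injective (act_inj (fin' hF hg) B D w hw h0)

theorem ell_neg (hg : IsGenus F g) (P0 : Pt F) {D : Dv F} (h : deg D < 0) : ell D = 0 := by
  by_contra hne
  obtain ⟨s, hs, hs0⟩ := eff_exists_ne (show 1 ≤ ell D by omega)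
  have := deg_nonneg_of_mem hg P0 hs hs0
  omega

/-- the differentials form a space of dimension one over `F` -/
theorem Om_one (hF : IsFF F) (hg : IsGenus F g) (P0 : Pt F) {D1 D2 : Dv F}
    {w1 w2 : Dual ℂ (Adl F)} (hw1 : w1 ∈ Om D1) (hw2 : w2 ∈ Om D2) (h1 : w1 ≠ 0)
    (h2 : w2 ≠ 0) : ∃ f : F, f ≠ 0 ∧ w2 = w1 ∘ₗ mu (fin' hF hg) f := by
  by_contra hcon
  push Not at hcon
  set H := fin' hF hg with hH
  obtain ⟨n, hn1, hn2⟩ : ∃ n : ℕ, 1 ≤ n ∧ 3 * (g : ℤ) - deg D1 - deg D2 < n :=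
    ⟨(3 * (g : ℤ) - deg D1 - deg D2).toNat + 1, by omega, by omega⟩
  set C : Dv F := Finsupp.single P0 (n : ℤ) with hC
  have hdC : deg C = n := deg_single P0 n
  have hsub1 : D1 - (D1 + C) = - C := by abel
  have hsub2 : D2 - (D2 + C) = - C := by abel
  have hr1 : ∀ f : LL (D1 + C), w1 ∘ₗ mu H f.1 ∈ Om (-C) := by
    intro f
    have := mul_mem_Om H f.2 hw1
    rwa [hsub1] at this
  have hr2 : ∀ f : LL (D2 + C), w2 ∘ₗ mu H f.1 ∈ Om (-C) := by
    intro f
    have := mul_mem_Om H f.2 hw2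
    rwa [hsub2] at this
  let φ : (LL (D1 + C) × LL (D2 + C)) →ₗ[ℂ] Om (-C) :=
    { toFun := fun u => ⟨w1 ∘ₗ mu H u.1.1 + w2 ∘ₗ mu H u.2.1,
        Submodule.add_mem _ (hr1 u.1) (hr2 u.2)⟩
      map_add' := by
        intro a b
        apply Subtype.ext
        change w1 ∘ₗ mu H (a.1.1 + b.1.1) + w2 ∘ₗ mu H (a.2.1 + b.2.1) =
          (w1 ∘ₗ mu H a.1.1 + w2 ∘ₗ mu H a.2.1) + (w1 ∘ₗ mu H b.1.1 + w2 ∘ₗ mu H b.2.1)
        rw [mu_add, mu_add, LinearMap.comp_add, LinearMap.comp_add]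
        abel
      map_smul' := by
        intro c a
        apply Subtype.ext
        change w1 ∘ₗ mu H (c • a.1.1) + w2 ∘ₗ mu H (c • a.2.1) =
          c • (w1 ∘ₗ mu H a.1.1 + w2 ∘ₗ mu H a.2.1)
        rw [mu_smul, mu_smul, LinearMap.comp_smul, LinearMap.comp_smul, smul_add] }
  have hφ : Function.Injective φ := by
    rw [← LinearMap.ker_eq_bot, LinearMap.ker_eq_bot']
    rintro ⟨x, y⟩ hxy
    have hxy' : w1 ∘ₗ mu H x.1 + w2 ∘ₗ mu H y.1 = 0 := congrArg Subtype.val hxy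
    by_cases hy : y.1 = 0
    · have hmu0 : mu H (0 : F) = 0 := by
        apply LinearMap.ext
        intro a
        apply Subtype.ext
        funext P
        change 0 * a.1 P = 0
        ring
      rw [hy, hmu0, LinearMap.comp_zero, add_zero] at hxy'
      have hx : x.1 = 0 := by
        by_contra hx
        exact h1 (comp_ne H hx hxy')
      exact Prod.ext (Subtype.ext hx) (Subtype.ext hy)
    · exfalso
      by_cases hx : x.1 = 0
      · have hmu0 : mu H (0 : F) = 0 := by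
          apply LinearMap.ext
          intro a
          apply Subtype.ext
          funext P
          change 0 * a.1 P = 0
          ring
        rw [hx, hmu0, LinearMap.comp_zero, zero_add] at hxy'
        exact h2 (comp_ne H hy hxy')
      · apply hcon (-(x.1 / y.1)) (neg_ne_zero.mpr (div_ne_zero hx hy))
        have h3 : w2 = (w2 ∘ₗ mu H y.1) ∘ₗ mu H (y.1)⁻¹ := by
          rw [LinearMap.comp_assoc, ← mu_mul, mul_inv_cancel₀ hy, mu_one, LinearMap.comp_id]
        have h4 : w2 ∘ₗ mu H y.1 = w1 ∘ₗ mu H (-x.1) := by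
          have h5 : mu H (-x.1) = - mu H x.1 := by
            apply LinearMap.ext
            intro a
            apply Subtype.ext
            funext P
            change -x.1 * a.1 P = -(x.1 * a.1 P)
            ring
          rw [h5, LinearMap.comp_neg]
          exact eq_neg_of_add_eq_zero_right hxy'
        rw [h3, h4, LinearMap.comp_assoc, ← mu_mul]
        congr 2
        field_simp
  obtain ⟨hfin, hrk⟩ := Om_fin hF hg P0 (-C)
  have := fin_of_genus hg P0 (D1 + C)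
  have := fin_of_genus hg P0 (D2 + C)
  have h3 := LinearMap.finrank_le_finrank_of_injective hφ
  rw [Module.finrank_prod] at h3
  have h4 : ((ell (D1 + C) + ell (D2 + C) : ℕ) : ℤ) ≤ finrank ℂ (Om (-C)) := by
    exact_mod_cast h3
  have h5 : deg (-C) = - n := by
    have := deg_sub (0 : Dv F) C
    rw [zero_sub, hdC] at this
    rw [this]
    simp [deg]
  have h6 : ell (-C) = 0 := ell_neg hg P0 (by rw [h5]; omega)
  rw [hrk, h5, h6] at h4
  have h7 := hg.1 (D1 + C)
  have h8 := hg.1 (D2 + C)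
  rw [deg_add, hdC] at h7 h8
  push_cast at h4
  linarith

theorem AD_sup {A B : Dv F} : AD (A ⊔ B) ≤ AD A ⊔ AD B := by
  classical
  intro a ha
  rw [Submodule.mem_sup]
  refine ⟨fun P => if B P ≤ A P then a P else 0, ?_, fun P => if B P ≤ A P then 0 else a P, ?_, ?_⟩
  · intro P hP
    by_cases h : B P ≤ A P
    · simp only [h, if_true] at hP ⊢
      have h1 := ha P hP
      rw [Finsupp.sup_apply, sup_eq_left.mpr h] at h1
      exact h1
    · simp only [h, if_false] at hP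
      exact absurd rfl hP
  · intro P hP
    by_cases h : B P ≤ A P
    · simp only [h, if_true] at hP
      exact absurd rfl hP
    · simp only [h, if_false] at hP ⊢
      have h1 := ha P hP
      rw [Finsupp.sup_apply, sup_eq_right.mpr (by linarith)] at h1
      exact h1
  · funext P
    by_cases h : B P ≤ A P
    · simp [h]
    · simp [h]

theorem Om_sup {A B : Dv F} {w : Dual ℂ (Adl F)} (hA : w ∈ Om A) (hB : w ∈ Om B) :
    w ∈ Om (A ⊔ B) := by
  rw [mem_Om] at hA hB ⊢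
  intro a ha
  rw [mem_WQ] at ha
  obtain ⟨b, hb, k, hbk⟩ := mem_WW.mp ha
  obtain ⟨b1, hb1, b2, hb2, hb12⟩ := Submodule.mem_sup.mp (AD_sup hb)
  have hc2 : dg k + b2 ∈ Adl F := by
    have h1 : dg k + b2 = (a : Pt F → F) - b1 := by
      rw [hbk, ← hb12]
      abel
    rw [h1]
    exact Submodule.sub_mem _ a.2 ⟨A, hb1⟩
  have h1 : a = ⟨b1, A, hb1⟩ + ⟨dg k + b2, hc2⟩ := by
    apply Subtype.ext
    change (a : Pt F → F) = b1 + (dg k + b2)
    rw [hbk, ← hb12]
    abel
  rw [h1, map_add, hA ⟨b1, A, hb1⟩ (by rw [mem_WQ]; exact Submodule.mem_sup_left hb1),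
    hB ⟨dg k + b2, hc2⟩ (by
      rw [mem_WQ]
      exact Submodule.add_mem _ (Submodule.mem_sup_right ⟨k, rfl⟩)
        (Submodule.mem_sup_left hb2)), add_zero]

theorem eq_of_le_of_deg {A B : Dv F} (h : A ≤ B) (hd : deg B ≤ deg A) : A = B := by
  obtain ⟨l, hl⟩ := exists_lsum h
  have h1 : deg B = deg A + l.length := by rw [hl, deg_add, deg_lsum]
  have h2 : l.length = 0 := by
    have : (l.length : ℤ) = 0 := le_antisymm (by linarith) (by positivity)
    exact_mod_cast this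
  rw [hl, List.length_eq_zero_iff.mp h2, lsum_nil, add_zero]

/-- Riemann-Roch -/
theorem riemann_roch (hF : IsFF F) (hg : IsGenus F g) (P0 : Pt F) :
    ∃ K : Dv F, ∀ D : Dv F, (ell (K - D) : ℤ) = g - 1 - deg D + ell D := by
  set H := fin' hF hg with hH
  -- a nonzero differential
  obtain ⟨w, D0, hw, hw0⟩ : ∃ (w : Dual ℂ (Adl F)) (D0 : Dv F), w ∈ Om D0 ∧ w ≠ 0 := by
    set D0 : Dv F := Finsupp.single P0 (-2 : ℤ) with hD0
    obtain ⟨h1, h2⟩ := Om_fin hF hg P0 D0
    have h3 : (0 : ℤ) < finrank ℂ (Om D0) := by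
      rw [h2, hD0, deg_single]
      have : (0 : ℤ) ≤ ell (Finsupp.single P0 (-2 : ℤ) : Dv F) := by positivity
      linarith [Int.natCast_nonneg g]
    have h4 : 0 < finrank ℂ (Om D0) := by exact_mod_cast h3
    have := finrank_pos_iff.mp h4
    obtain ⟨x, hx⟩ := exists_ne (0 : Om D0)
    exact ⟨x.1, D0, x.2, fun h => hx (Subtype.ext h)⟩
  -- the canonical divisor
  have hbd : ∀ D : Dv F, w ∈ Om D → deg D ≤ 2 * g := by
    intro D hD
    have h1 := ell_le_Om hF hg P0 hD hw0 D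
    rw [sub_self] at h1
    have h2 := hg.1 D
    have h3 := dlt_ell_zero hF hg P0
    have h4 : deg (0 : Dv F) = 0 := by simp [deg]
    have h5 : (ell (0 : Dv F) : ℤ) ≤ 1 := by exact_mod_cast h3
    rw [h4] at h1
    linarith
  obtain ⟨K, hK, hmax⟩ : ∃ K : Dv F, w ∈ Om K ∧ ∀ D : Dv F, w ∈ Om D → deg D ≤ deg K := by
    let T : ℕ → Prop := fun n => ∃ D : Dv F, w ∈ Om D ∧ 2 * (g : ℤ) - deg D = n
    have hT : ∃ n, T n := ⟨(2 * (g : ℤ) - deg D0).toNat, D0, hw, by
      have := hbd D0 hw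
      omega⟩
    classical
    obtain ⟨K, hK, hKn⟩ := Nat.find_spec hT
    refine ⟨K, hK, fun D hD => ?_⟩
    by_contra hlt
    push Not at hlt
    have h1 := hbd D hD
    have h2 := Nat.find_min' hT (m := (2 * (g : ℤ) - deg D).toNat) ⟨D, hD, by omega⟩
    omega
  have hchar : ∀ D : Dv F, w ∈ Om D → D ≤ K := by
    intro D hD
    have h1 := hmax _ (Om_sup hD hK)
    have h2 := eq_of_le_of_deg (le_sup_right : K ≤ D ⊔ K) h1
    rw [h2]
    exact le_sup_left
  refine ⟨K, fun D => ?_⟩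
  obtain ⟨hfin, hrk⟩ := Om_fin hF hg P0 D
  rw [← hrk]
  have hsub : K - (K - D) = D := by abel
  have hin : ∀ f : LL (K - D), w ∘ₗ mu H f.1 ∈ Om D := by
    intro f
    have := mul_mem_Om H f.2 hK
    rwa [hsub] at this
  let φ : LL (K - D) →ₗ[ℂ] Om D :=
    { toFun := fun f => ⟨w ∘ₗ mu H f.1, hin f⟩
      map_add' := by
        intro a b
        apply Subtype.ext
        change w ∘ₗ mu H (a.1 + b.1) = w ∘ₗ mu H a.1 + w ∘ₗ mu H b.1
        rw [mu_add, LinearMap.comp_add]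
      map_smul' := by
        intro c a
        apply Subtype.ext
        change w ∘ₗ mu H (c • a.1) = c • (w ∘ₗ mu H a.1)
        rw [mu_smul, LinearMap.comp_smul] }
  have hinj : Function.Injective φ := by
    rw [← LinearMap.ker_eq_bot, LinearMap.ker_eq_bot']
    intro f hf
    by_contra hne
    have hne' : f.1 ≠ 0 := fun h => hne (Subtype.ext h)
    exact hw0 (comp_ne H hne' (congrArg Subtype.val hf))
  have hsurj : Function.Surjective φ := by
    rintro ⟨w2, hw2⟩
    by_cases h2 : w2 = 0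
    · refine ⟨0, ?_⟩
      rw [map_zero]
      exact Subtype.ext h2.symm
    · obtain ⟨f, hf0, hf⟩ := Om_one hF hg P0 hK hw2 hw0 h2
      obtain ⟨E, hE, _⟩ := exists_dv hF hg P0 hf0
      have hfi : f⁻¹ ∈ LL E := by
        intro _ P
        rw [P.ord_inv, hE P]
        linarith
      have h3 : w = w2 ∘ₗ mu H f⁻¹ := by
        rw [hf, LinearMap.comp_assoc, ← mu_mul, mul_inv_cancel₀ hf0, mu_one, LinearMap.comp_id]
      have h4 : w ∈ Om (D - E) := by
        rw [h3]
        exact mul_mem_Om H hfi hw2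
      have h5 := hchar _ h4
      refine ⟨⟨f, ?_⟩, Subtype.ext hf.symm⟩
      intro _ P
      have h6 := h5 P
      rw [Finsupp.sub_apply, hE P] at h6
      rw [Finsupp.sub_apply]
      linarith
  exact_mod_cast LinearEquiv.finrank_eq (LinearEquiv.ofBijective φ ⟨hinj, hsurj⟩)

end

end Pool.H24.RR
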