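import Pool.Agent.H24.RR.Sum

/-!
# Nets from a birational linear series
-/

namespace Pool.H24.RR

open Pool.H29.BN Pool.H29.CB Module

noncomputable section

variable {F : Type} [Field F] [Algebra ℂ F] {g : ℕ}

/-- `F` has a net of degree at most `e` -/
def NetLe (F : Type) [Field F] [Algebra ℂ F] (e : ℤ) : Prop :=
  ∃ D : Dv F, deg D ≤ e ∧ 3 ≤ ell D

theorem NetLe.mono {e e' : ℤ} (h : NetLe F e) (hle : e ≤ e') : NetLe F e' := by
  obtain ⟨D, h1, h2⟩ := h
  exact ⟨D, h1.trans hle, h2⟩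

theorem NetLe.grd (hg : IsGenus F g) (P0 : Pt F) {e : ℕ} (h : NetLe F e) : HasGrd F 2 e := by
  obtain ⟨D, h1, h2⟩ := h
  refine ⟨D + Finsupp.single P0 (e - deg D), ?_, ?_⟩
  · rw [deg_add, deg_single]
    ring
  · have := fin_of_genus hg P0 (D + Finsupp.single P0 (e - deg D))
    refine h2.trans (Submodule.finrank_mono (LL_mono ?_))
    exact le_add_of_nonneg_right (Finsupp.single_nonneg.mpr (by linarith))

theorem NetLe.pos (hg : IsGenus F g) (P0 : Pt F) {D : Dv F} (h : 1 ≤ ell D) : 0 ≤ deg D := by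
  obtain ⟨s, hs, hs0⟩ := eff_exists_ne h
  exact deg_nonneg_of_mem hg P0 hs hs0

/-- peeling single points -/
theorem peel1 (hF : IsFF F) (hg : IsGenus F g) (P0 : Pt F) (D : Dv F) (h : 3 ≤ ell D) :
    NetLe F (deg D - ell D + 3) := by
  obtain ⟨k, hk⟩ : ∃ k : ℕ, ell D = 3 + k := ⟨ell D - 3, by omega⟩
  have h1 : D - Finsupp.single P0 (k : ℤ) ≤ D :=
    sub_le_self _ (Finsupp.single_nonneg.mpr (by positivity))
  have h2 := (ell_le hF h1 (fin_of_genus hg P0 _)).2
  rw [sub_sub_cancel, deg_single] at h2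
  refine ⟨D - Finsupp.single P0 (k : ℤ), ?_, ?_⟩
  · rw [deg_sub, deg_single, hk]
    push_cast
    linarith
  · omega

/-- peeling pairs of points -/
theorem peel2' (hF : IsFF F) (hg : IsGenus F g) (P0 : Pt F) (D : Dv F) (h : 3 ≤ ell D)
    (hRF : RF D ≠ ⊤) : NetLe F (max 2 (deg D - 2 * ell D + 6)) := by
  have h0 := NetLe.pos hg P0 (show 1 ≤ ell D by omega)
  obtain ⟨m, hm⟩ : ∃ m : ℕ, deg D = m := ⟨(deg D).toNat, by omega⟩
  by_cases hm2 : m ≤ 2
  · exact ⟨D, by rw [hm]; exact le_max_of_le_left (by exact_mod_cast hm2), h⟩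
  · obtain ⟨k, hk1, hk2, hk3⟩ : ∃ k : ℕ, 3 + k ≤ ell D ∧ 1 + 2 * k ≤ m ∧
        ((m : ℤ) - 2 * k ≤ 2 ∨ 3 + k = ell D) := by
      by_cases hc : 1 + 2 * (ell D - 3) ≤ m
      · exact ⟨ell D - 3, by omega, hc, Or.inr (by omega)⟩
      · exact ⟨(m - 1) / 2, by omega, by omega, Or.inl (by omega)⟩
    obtain ⟨D', h1, h2⟩ := peel_many2 hF hg P0 k (m - 2 * k) D (by omega)
      (by rw [hm]; congr 1; omega) hk1 hRF
    refine ⟨D', ?_, h2⟩
    rw [h1, le_max_iff]
    omega

/-- base point free effective representative, with a section -/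
theorem eff' (hF : IsFF F) (hg : IsGenus F g) (P0 : Pt F) (D' : Dv F) (h2 : 2 ≤ ell D') :
    ∃ D : Dv F, 0 ≤ D ∧ deg D ≤ deg D' ∧ 1 ≤ deg D ∧ ell D = ell D' ∧
      (∀ P : Pt F, ell (D - Finsupp.single P 1) < ell D) ∧
      IntermediateField.adjoin ℂ (LL D : Set F) = RF D' ∧
      ∃ t : F, t ≠ 0 ∧ ∀ P : Pt F, D P ≤ D' P + P.ord t := by
  classical
  obtain ⟨s0, hs0', hs0⟩ := eff_exists_ne (show 1 ≤ ell D' by omega)
  let T : ℕ → Prop := fun n => ∃ A : Dv F, A ≤ D' ∧ LL A = LL D' ∧ deg A = n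
  have hdeg0 : ∀ A : Dv F, LL A = LL D' → 0 ≤ deg A := by
    intro A hA
    rw [← hA] at hs0'
    exact deg_nonneg_of_mem hg P0 hs0' hs0
  have hT : ∃ n, T n := ⟨(deg D').toNat, D', le_rfl, rfl, by
    have := hdeg0 D' rfl
    omega⟩
  obtain ⟨A, hAD, hAL, hAn⟩ := Nat.find_spec hT
  have hmin : ∀ m < Nat.find hT, ¬ T m := fun m hm => Nat.find_min hT hm
  have hellA : ell A = ell D' := by unfold ell; rw [hAL]
  have hbpf : ∀ P : Pt F, ell (A - Finsupp.single P 1) < ell A := by
    intro P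
    by_contra hge
    push Not at hge
    have hle0 : A - Finsupp.single P 1 ≤ A :=
      sub_le_self _ (Finsupp.single_nonneg.mpr (by norm_num))
    have hle : LL (A - Finsupp.single P 1) ≤ LL A := LL_mono hle0
    have hfin := fin_of_genus hg P0 A
    have heq : LL (A - Finsupp.single P 1) = LL A :=
      Submodule.eq_of_le_of_finrank_le hle hge
    have hd : deg (A - Finsupp.single P 1) = deg A - 1 := by rw [deg_sub, deg_single]
    have hnn := hdeg0 (A - Finsupp.single P 1) (heq.trans hAL)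
    have hpos : 1 ≤ Nat.find hT := by
      rw [hd, hAn] at hnn
      omega
    apply hmin (Nat.find hT - 1) (by omega)
    refine ⟨A - Finsupp.single P 1, hle0.trans hAD, heq.trans hAL, ?_⟩
    rw [hd, hAn]
    omega
  have hsA : s0 ∈ LL A := by rw [hAL]; exact hs0'
  obtain ⟨E, hE0, hE, hdE⟩ := exists_div hg P0 hsA hs0
  have hinv : ∀ P : Pt F, P.ord s0⁻¹ = A P - E P := by
    intro P
    rw [P.ord_inv, hE P]; ring
  have hellE : ell E = ell A := by
    apply le_antisymm
    · exact (ell_le_of_mul (A := A) (B := E) s0 hs0 (fun P => by rw [hE P]; linarith)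
        (fin_of_genus hg P0 A)).2
    · exact (ell_le_of_mul (A := E) (B := A) s0⁻¹ (inv_ne_zero hs0)
        (fun P => by rw [hinv P]; linarith) (fin_of_genus hg P0 E)).2
  have hmul : ∀ f ∈ LL E, f * s0 ∈ LL A := by
    intro f hf h0 P
    have hf0 : f ≠ 0 := left_ne_zero_of_mul h0
    rw [P.ord_mul _ _ hf0 hs0, hE P]
    have := hf hf0 P
    linarith
  have hdiv : ∀ f ∈ LL A, f / s0 ∈ LL E := by
    intro f hf h0 P
    have hf0 : f ≠ 0 := by
      intro h
      rw [h, zero_div] at h0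
      exact h0 rfl
    rw [div_eq_mul_inv, P.ord_mul _ _ hf0 (inv_ne_zero hs0), hinv P]
    have := hf hf0 P
    linarith
  refine ⟨E, hE0, by rw [hdE]; exact deg_mono hAD, ?_, hellE.trans hellA, ?_, ?_,
    s0, hs0, fun P => ?_⟩
  · by_contra hlt
    push Not at hlt
    have hst := (step hF (E - Finsupp.single P0 1) P0 (fin_of_genus hg P0 _)).2
    rw [sub_add_cancel] at hst
    have h0 : ell (E - Finsupp.single P0 1) = 0 := by
      by_contra hne
      obtain ⟨t, ht, ht0⟩ := eff_exists_ne (show 1 ≤ ell (E - Finsupp.single P0 1) by omega)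
      have := deg_nonneg_of_mem hg P0 ht ht0
      rw [deg_sub, deg_single] at this
      omega
    omega
  · intro P
    have h1 := (ell_le_of_mul (A := A - Finsupp.single P 1) (B := E - Finsupp.single P 1) s0 hs0
      (fun Q => by
        rw [Finsupp.sub_apply, Finsupp.sub_apply, hE Q]
        linarith) (fin_of_genus hg P0 _)).2
    have h2 := hbpf P
    omega
  · apply le_antisymm
    · rw [IntermediateField.adjoin_le_iff]
      intro f hf
      apply IntermediateField.subset_adjoin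
      refine ⟨f * s0, ?_, s0, hs0', hs0, ?_⟩
      · rw [← hAL]; exact hmul f hf
      · rw [mul_div_cancel_right₀ _ hs0]
    · unfold RF
      rw [IntermediateField.adjoin_le_iff]
      rintro h ⟨a, ha, b, hb, hb0, rfl⟩
      rw [← hAL] at ha hb
      have h1 : a / b = (a / s0) / (b / s0) := by
        rw [div_div_div_cancel_right₀ hs0]
      rw [h1]
      exact div_mem (IntermediateField.subset_adjoin _ _ (hdiv a ha))
        (IntermediateField.subset_adjoin _ _ (hdiv b hb))
  · have h1 := hAD P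
    rw [hE P]
    linarith

/-- `S r j = ∑_{i=1}^{j} (i (r-1) + 1)` -/
def SS (r j : ℕ) : ℕ := ∑ i ∈ Finset.Icc 1 j, (i * (r - 1) + 1)

theorem SS_succ (r j : ℕ) : SS r (j + 1) = SS r j + ((j + 1) * (r - 1) + 1) := by
  unfold SS
  rw [← Finset.insert_Icc_right_eq_Icc_add_one (by omega), Finset.sum_insert (by simp), add_comm]

theorem SS_two (r j : ℕ) : 2 * SS r j = j * (j + 1) * (r - 1) + 2 * j := by
  induction j with
  | zero => simp [SS]
  | succ j ih => rw [SS_succ, mul_add, ih]; ring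

/-- growth of the multiples, sum -/
theorem grow_sum (hF : IsFF F) (hg : IsGenus F g) (P0 : Pt F) {N : Dv F} {x y : F}
    (p : Pen N x y) {a r : ℕ} (ha : deg N = a) (hr : r + 1 ≤ ell N) (j : ℕ)
    (hj : j * (r - 1) + 1 ≤ a) : 1 + SS r j ≤ ell (j • N) := by
  induction j with
  | zero =>
    have h1 : (1 : F) ∈ LL ((0 : ℕ) • N) := dlt_one_mem p.nn 0
    have := fin_of_genus hg P0 ((0 : ℕ) • N)
    have h2 : SS r 0 = 0 := by simp [SS]
    rw [h2, add_zero]
    unfold ell
    apply Submodule.one_le_finrank_iff.mpr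
    rw [Submodule.ne_bot_iff]
    exact ⟨1, h1, one_ne_zero⟩
  | succ j ih =>
    have h1 := grow hF hg P0 p ha hr j
    rw [min_eq_right hj] at h1
    have h2 := ih (by
      have : j * (r - 1) ≤ (j + 1) * (r - 1) := Nat.mul_le_mul_right _ (by omega)
      omega)
    rw [SS_succ]
    omega

/-- the canonical divisor has degree `2g - 2` -/
theorem canonical (hF : IsFF F) (hg : IsGenus F g) (P0 : Pt F) :
    ∃ K : Dv F, deg K = 2 * g - 2 ∧ ∀ D : Dv F, (ell (K - D) : ℤ) = g - 1 - deg D + ell D := by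
  obtain ⟨K, hK⟩ := riemann_roch hF hg P0
  refine ⟨K, ?_, hK⟩
  have h1 := hK 0
  have h2 := hK K
  have h3 : ell (0 : Dv F) = 1 := by
    apply le_antisymm (dlt_ell_zero hF hg P0)
    have h1 : (1 : F) ∈ LL (0 : Dv F) := by
      intro _ P
      rw [P.ord_one']
      simp
    have := fin_of_genus hg P0 (0 : Dv F)
    unfold ell
    apply Submodule.one_le_finrank_iff.mpr
    rw [Submodule.ne_bot_iff]
    exact ⟨1, h1, one_ne_zero⟩
  have h4 : deg (0 : Dv F) = 0 := by simp [deg]
  rw [sub_zero, h4, h3] at h1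
  rw [sub_self, h3] at h2
  push_cast at h1 h2
  linarith

/-- the main theorem: nets below Castelnuovo's number -/
theorem nets (hF : IsFF F) (hg : IsGenus F g) (P0 : Pt F) {D : Dv F} {r d j : ℕ} (hr : 3 ≤ r)
    (hd : 2 * r ≤ d) (hD : deg D = d) (hell : r + 1 ≤ ell D) (hj : 2 ≤ j)
    (hjd : (j + 1) * (r - 1) < d) (hw : j * d + 3 ≤ g + SS r j) :
    NetLe F (max (d - 2 * r + 4) (g + 1 - SS r j)) ∧
    (d ≤ (j + 2) * (r - 1) → NetLe F (d - 2 * r + 4)) := by
  by_cases hRF : RF D ≠ ⊤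
  · have h1 := peel2' hF hg P0 D (by omega) hRF
    have h2 : NetLe F (d - 2 * r + 4) := h1.mono (by
      rw [hD]
      apply max_le <;> omega)
    exact ⟨h2.mono (le_max_left _ _), fun _ => h2⟩
  push Not at hRF
  obtain ⟨A, hA0, hAd, hA1, hAell, hAb, hAadj, _⟩ := eff' hF hg P0 D (by omega)
  obtain ⟨a, ha⟩ : ∃ a : ℕ, deg A = a := ⟨(deg A).toNat, by omega⟩
  have had : a ≤ d := by
    have : (a : ℤ) ≤ d := by rw [← ha, ← hD]; exact hAd
    exact_mod_cast this
  have hAr : r + 1 ≤ ell A := by omega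
  by_cases hsmall : a + 2 * r + 3 ≤ d + 4 + ell A
  · have h1 := peel1 hF hg P0 A (by omega)
    have h2 : NetLe F (d - 2 * r + 4) := h1.mono (by rw [ha]; omega)
    exact ⟨h2.mono (le_max_left _ _), fun _ => h2⟩
  push Not at hsmall
  obtain ⟨x, y, p⟩ := exists_pen hF hg P0 hA0 hA1 hAb (by rw [hAadj, hRF])
  -- atoms
  obtain ⟨R, hR⟩ : ∃ R : ℕ, r = R + 1 := ⟨r - 1, by omega⟩
  have hR1 : r - 1 = R := by omega
  have hjR : (j + 1) * (r - 1) = j * (r - 1) + (r - 1) := by ring
  have hjR2 : (j + 2) * (r - 1) = j * (r - 1) + 2 * (r - 1) := by ring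
  have hjja : j * (r - 1) + 1 ≤ a := by omega
  have hG2 := grow_sum hF hg P0 p ha hAr j hjja
  obtain ⟨j', hj'⟩ : ∃ j', j = j' + 1 := ⟨j - 1, by omega⟩
  have hG1 := grow hF hg P0 p ha hAr j'
  rw [← hj', min_eq_right hjja] at hG1
  have hja : j * a ≤ j * d := Nat.mul_le_mul_left j had
  obtain ⟨K, hKd, hK⟩ := canonical hF hg P0
  have hKj := hK (j • A)
  rw [dlt_deg_nsmul, ha] at hKj
  set K' : Dv F := K - j • A with hK'
  have hK'deg : deg K' = 2 * g - 2 - j * a := by
    rw [hK', deg_sub, hKd, dlt_deg_nsmul, ha]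
  have hjaz : (j : ℤ) * a ≤ j * d := by exact_mod_cast hja
  have hwz : (j : ℤ) * d + 3 ≤ g + SS r j := by exact_mod_cast hw
  have hG2z : 1 + (SS r j : ℤ) ≤ ell (j • A) := by exact_mod_cast hG2
  have hK'3 : 3 ≤ ell K' := by
    have : (3 : ℤ) ≤ ell K' := by linarith
    exact_mod_cast this
  have h2S := SS_two r j
  by_cases hRK : RF K' ≠ ⊤
  · -- composed
    have h1 := peel2' hF hg P0 K' hK'3 hRK
    have hbound : deg K' - 2 * ell K' + 6 ≤ j * d + 4 - 2 * SS r j := by
      rw [hK'deg, hKj]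
      linarith
    refine ⟨h1.mono ?_, fun hd2 => h1.mono ?_⟩
    · apply max_le
      · apply le_max_of_le_left
        omega
      · apply le_max_of_le_right
        linarith
    · apply max_le
      · omega
      · refine hbound.trans ?_
        -- (j-1) d ≤ (j-1)(j+2)(r-1)
        have h3 : (j' : ℤ) * d ≤ j' * ((j + 2) * (r - 1 : ℕ)) := by
          have : d ≤ (j + 2) * (r - 1) := hd2
          have h4 : (d : ℤ) ≤ (j + 2) * (r - 1 : ℕ) := by exact_mod_cast this
          exact mul_le_mul_of_nonneg_left h4 (by positivity)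
        have h4 : (2 * SS r j : ℤ) = j * (j + 1) * (r - 1 : ℕ) + 2 * j := by exact_mod_cast h2S
        have h5 : (j : ℤ) = j' + 1 := by exact_mod_cast hj'
        have h6 : ((r - 1 : ℕ) : ℤ) = r - 1 := by omega
        rw [h4]
        rw [h6] at h3 ⊢
        rw [h5] at h3 ⊢
        nlinarith
  push Not at hRK
  refine ⟨?_, fun hd2 => ?_⟩
  · -- peeling single points
    have h1 := peel1 hF hg P0 K' hK'3
    refine h1.mono (le_max_of_le_right ?_)
    rw [hK'deg, hKj]
    linarith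
  · obtain ⟨N, hN0, hNd, hN1, hNell, hNb, hNadj, t, ht0, ht⟩ := eff' hF hg P0 K' (by omega)
    obtain ⟨n, hn⟩ : ∃ n : ℕ, deg N = n := ⟨(deg N).toNat, by omega⟩
    obtain ⟨x', y', q⟩ := exists_pen hF hg P0 hN0 hN1 hNb (by rw [hNadj, hRK])
    -- upper bound for `ell (N + A)`
    have hup : ell (N + A) ≤ ell (K - j' • A) := by
      refine (ell_le_of_mul (A := K - j' • A) (B := N + A) t ht0 (fun P => ?_)
        (fin_of_genus hg P0 _)).2
      have h1 := ht P
      rw [hK', hj', Finsupp.sub_apply, succ_nsmul, Finsupp.add_apply] at h1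
      rw [Finsupp.add_apply, Finsupp.sub_apply]
      linarith
    have hKj' := hK (j' • A)
    rw [dlt_deg_nsmul, ha] at hKj'
    have h5 : (j : ℤ) = j' + 1 := by exact_mod_cast hj'
    have hja' : (j : ℤ) * a = j' * a + a := by rw [h5]; ring
    have hG1z : (ell (j' • A) : ℤ) + ((j * (r - 1) : ℕ) + 1) ≤ ell (j • A) := by
      exact_mod_cast hG1
    have hupz : (ell (N + A) : ℤ) ≤ ell K' + a - (j * (r - 1) : ℕ) - 1 := by
      have h1 : (ell (N + A) : ℤ) ≤ ell (K - j' • A) := by exact_mod_cast hup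
      linarith
    have hjRz : 2 * (r - 1) ≤ j * (r - 1) := Nat.mul_le_mul_right _ hj
    set J : ℕ := j * (r - 1) with hJ
    by_cases hc : (n : ℤ) ≤ ell K' + a - J - 1 - ell A
    · -- `N` has small degree
      have h1 := peel1 hF hg P0 N (by omega)
      refine h1.mono ?_
      rw [hn]
      omega
    push Not at hc
    have hsum : ¬ ((ell K' : ℤ) + a - J - ell A + 2 + ell (A - N) ≤ ell N + ell A) := by
      intro hcon
      obtain ⟨k, hk⟩ : ∃ k : ℕ, (k : ℤ) = ell K' + a - J - ell A := by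
        refine ⟨((ell K' : ℤ) + a - J - ell A).toNat, ?_⟩
        have : (0 : ℤ) ≤ ell K' + a - J - ell A := by
          have h1 : ell A ≤ ell (N + A) := by
            have := fin_of_genus hg P0 (N + A)
            exact Submodule.finrank_mono (LL_mono (le_add_of_nonneg_left hN0))
          have h2 : (ell A : ℤ) ≤ ell (N + A) := by exact_mod_cast h1
          linarith
        omega
      have h1 := sum_ell hF hg P0 q (D := A) (by omega) hn (k := k) (by omega) (by omega)
      omega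
    push Not at hsum
    have ht3 : 3 ≤ ell (A - N) := by omega
    have h1 := peel1 hF hg P0 (A - N) ht3
    have h2 := peel1 hF hg P0 N (by omega)
    rw [deg_sub, ha, hn] at h1
    rw [hn] at h2
    by_cases hc1 : (a : ℤ) - n - ell (A - N) + 3 ≤ d - 2 * r + 4
    · exact h1.mono hc1
    by_cases hc2 : (n : ℤ) - ell N + 3 ≤ d - 2 * r + 4
    · exact h2.mono hc2
    exfalso
    omega

end

end Pool.H24.RR
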