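import Pool.Agent.H24.RR.Dif

/-!
# Rank of sections on a generic member of a birational linear series

`Pen N x y`: `N ≥ 0` is a divisor, `x, y ∈ L(N)` generate `F`, and `y` has all poles of maximal order.
`cnt_ell`: `ell B + rank_N(B + N) ≤ ell (B + N)`, `rank_N` = the dimension over `K` of the span.
`sum_ell`: the sum lemma.
-/

namespace Pool.H24.RR

open Pool.H29.BN Pool.H29.CB Module Polynomial

noncomputable section

variable {F : Type} [Field F] [Algebra ℂ F] {g : ℕ}

/-- a pencil in a birational complete linear series -/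
structure Pen (N : Dv F) (x y : F) : Prop where
  nn : 0 ≤ N
  d1 : 1 ≤ deg N
  hx : x ∈ LL N
  hy : y ∈ LL N
  hex : ∀ P : Pt F, 0 < N P → P.ord y = - N P
  tx : Transcendental ℂ x
  gen : IntermediateField.adjoin ℂ {x, y} = ⊤

theorem exists_pos {N : Dv F} (hN : 0 ≤ N) (h : 1 ≤ deg N) : ∃ P : Pt F, 0 < N P := by
  by_contra hcon
  push Not at hcon
  have hz : N = 0 := by
    ext P
    exact le_antisymm (hcon P) (hN P)
  rw [hz] at h
  have h0 : deg (0 : Dv F) = 0 := by simp [deg]
  rw [h0] at h
  norm_num at h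

theorem Pen.y0 {N : Dv F} {x y : F} (p : Pen N x y) : y ≠ 0 := by
  intro h0
  obtain ⟨P, hP⟩ := exists_pos p.nn p.d1
  have h1 := p.hex P hP
  rw [h0, P.ord_zero] at h1
  omega

theorem Pen.ty {N : Dv F} {x y : F} (p : Pen N x y) : Transcendental ℂ y := by
  obtain ⟨P, hP⟩ := exists_pos p.nn p.d1
  exact P.transcendental (by rw [p.hex P hP]; omega)

theorem exists_pen (hF : IsFF F) (hg : IsGenus F g) (P0 : Pt F) {N : Dv F} (hN : 0 ≤ N)
    (hd : 1 ≤ deg N) (hb : ∀ P : Pt F, ell (N - Finsupp.single P 1) < ell N)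
    (hgen : IntermediateField.adjoin ℂ (LL N : Set F) = ⊤) : ∃ x y : F, Pen N x y := by
  obtain ⟨y, hyD, hy0, hex⟩ := exa hN hb
  obtain ⟨P, hP⟩ := exists_pos hN hd
  have hyt : Transcendental ℂ y := P.transcendental (by rw [hex P hP]; omega)
  have hfin : FiniteDimensional ℂ (LL N) := fin_of_genus hg P0 N
  obtain ⟨x, hxD, hx, hgen⟩ := pre hF (LL N) y hyD hyt hgen
  exact ⟨x, y, hN, hd, hxD, hyD, hex, hx, hgen⟩

/-- independence over `ℂ[y]`, general divisor -/
theorem exi' {N : Dv F} {x y : F} (p : Pen N x y) (D : Dv F) {ι : Type} [Fintype ι] (f : ι → F)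
    (hf : ∀ i, f i ∈ LL D)
    (hind : ∀ c : ι → ℂ, ∀ h ∈ LL (D - N), ∑ i, c i • f i = y * h → ∀ i, c i = 0)
    (P : ι → ℂ[X]) (hP : ∑ i, aeval y (P i) * f i = 0) : ∀ i, P i = 0 := by
  have hy0 := p.y0
  obtain ⟨M, hM⟩ : ∃ M : ℕ, ∀ i, (P i).natDegree < M + 1 := by
    refine ⟨∑ i, (P i).natDegree, fun i => Nat.lt_succ_of_le ?_⟩
    exact Finset.single_le_sum (f := fun i => (P i).natDegree) (fun _ _ => Nat.zero_le _)
      (Finset.mem_univ i)
  -- the basic step
  have step : ∀ P : ι → ℂ[X], ∑ i, aeval y (P i) * f i = 0 →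
      (∀ i, (P i).coeff 0 = 0) ∧ ∑ i, aeval y ((P i).divX) * f i = 0 := by
    intro P hP
    set h : F := - ∑ i, aeval y ((P i).divX) * f i with hh
    have hdec : ∀ i, aeval y (P i) = y * aeval y ((P i).divX) + algebraMap ℂ F ((P i).coeff 0) := by
      intro i
      have h1 := congrArg (aeval y) (X_mul_divX_add (P i))
      rw [map_add, map_mul, aeval_X, aeval_C] at h1
      exact h1.symm
    have hsum : ∑ i, (P i).coeff 0 • f i = y * h := by
      have h1 : ∑ i, aeval y (P i) * f i =
          y * ∑ i, aeval y ((P i).divX) * f i + ∑ i, (P i).coeff 0 • f i := by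
        rw [Finset.mul_sum, ← Finset.sum_add_distrib]
        refine Finset.sum_congr rfl fun i _ => ?_
        rw [hdec i, Algebra.smul_def]
        ring
      rw [hP] at h1
      rw [hh]
      linear_combination -h1
    have hmem : h ∈ LL (D - N) := by
      intro h0 Q
      have hDQ : 0 ≤ N Q := p.nn Q
      have hyh : y * h ∈ LL D := by
        rw [← hsum]
        exact Submodule.sum_mem _ fun i _ => Submodule.smul_mem _ _ (hf i)
      have hyQ := p.hy hy0 Q
      rcases hDQ.eq_or_lt with hz | hpos
      · -- no pole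
        have hy1 : 0 ≤ Q.ord y := by rw [← hz] at hyQ; simpa using hyQ
        have h1 : -(D Q) ≤ Q.ord h := by
          rw [hh, Q.ord_neg]
          refine exi_le_ord_sum Q _ _ _ (fun i _ hi => ?_) (fun hc => h0 (by rw [hh, hc, neg_zero]))
          rw [Q.ord_mul _ _ (left_ne_zero_of_mul hi) (right_ne_zero_of_mul hi)]
          have h2 := Q.ord_aeval_nonneg hy1 ((P i).divX)
          have h3 := hf i (right_ne_zero_of_mul hi) Q
          linarith
        rw [Finsupp.sub_apply, ← hz]
        linarith
      · have h1 := hyh (mul_ne_zero hy0 h0) Q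
        rw [Q.ord_mul _ _ hy0 h0, p.hex Q hpos] at h1
        rw [Finsupp.sub_apply]
        linarith
    refine ⟨hind _ h hmem hsum, ?_⟩
    have hc := hind _ h hmem hsum
    have h2 : y * h = 0 := by
      rw [← hsum]
      exact Finset.sum_eq_zero fun i _ => by rw [hc i, zero_smul]
    have h3 : h = 0 := (mul_eq_zero.mp h2).resolve_left hy0
    rw [hh] at h3
    exact neg_eq_zero.mp h3
  induction M generalizing P with
  | zero =>
    intro i
    have h1 := (step P hP).1 i
    have h2 : (P i).natDegree = 0 := by have := hM i; omega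
    rw [eq_C_of_natDegree_eq_zero h2, h1, C_0]
  | succ M ih =>
    obtain ⟨hc, hd⟩ := step P hP
    have h1 := ih (fun i => (P i).divX) hd (by
      intro i
      have := hM i
      simp only [natDegree_divX_eq_natDegree_tsub_one]
      omega)
    intro i
    have h2 : (P i).divX = 0 := h1 i
    have h3 := X_mul_divX_add (P i)
    rw [h2, hc i, mul_zero, C_0, add_zero] at h3
    exact h3.symm

section

variable {E : Type} [Field E] [Algebra ℂ E] [Algebra F E] [IsScalarTower ℂ F E]

/-- the rank of `L(D)` on the generic member of `|N|` is at least `ell D - ell (D - N)` -/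
theorem rank_ge (hg : IsGenus F g) (P0 : Pt F) {N : Dv F} {x y : F} (p : Pen N x y) {u : E}
    (hu : Transcendental F u) (D : Dv F) :
    ell D ≤ finrank (KK x y u) (dltL x y u D) + ell (D - N) := by
  have hmul : ∀ h ∈ LL (D - N), y * h ∈ LL D := by
    intro h hh hyh P
    have hh0 : h ≠ 0 := right_ne_zero_of_mul hyh
    have h1 := hh hh0 P
    have h2 := p.hy p.y0 P
    rw [P.ord_mul _ _ p.y0 hh0]
    rw [Finsupp.sub_apply] at h1
    linarith
  obtain ⟨f, hf, hc⟩ := fam_sub (LL D) (LL (D - N)) (fin_of_genus hg P0 _) p.y0 hmul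
  have hli : LinearIndependent (KK x y u) (fun i => algebraMap F E (f i)) :=
    gen_indep f y (exi' p D f hf hc) x hu
  have := dlt_fd (E := E) hg P0 x y u D
  have hli' : LinearIndependent (KK x y u)
      (fun i => (⟨algebraMap F E (f i), dlt_mem x y u (hf i)⟩ : dltL x y u D)) :=
    LinearIndependent.of_comp (Submodule.subtype _) hli
  have e4 := hli'.fintype_card_le_finrank
  rw [Fintype.card_fin] at e4
  unfold ell
  omega

/-- if the span is everything then the rank is at least the degree -/
theorem rank_top (hF : IsFF F) (hg : IsGenus F g) (P0 : Pt F) {N : Dv F} {x y : F}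
    (p : Pen N x y) {u : E} (hu : Transcendental F u) {D : Dv F} (hD : dltL x y u D = ⊤) {n : ℕ}
    (hn : deg N = n) : n ≤ finrank (KK x y u) (dltL x y u D) := by
  have hn1 : 1 ≤ n := by
    have := p.d1
    omega
  have := dlt_fd (E := E) hg P0 x y u D
  obtain ⟨n0, hn0⟩ := ell_large hF hg P0 hn hn1
  have e1 := hn0 n0 le_rfl
  have e2 := hg.1 ((n0 + 1) • N)
  rw [dlt_deg_nsmul, hn] at e2
  push_cast at e2
  have e3 : n ≤ ell ((n0 + 1) • N) - ell (n0 • N) := by
    have : (ell (n0 • N) : ℤ) + n ≤ ell ((n0 + 1) • N) := by linarith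
    omega
  obtain ⟨f, hf, hli⟩ := fam hg P0 p.nn p.d1 p.hy p.hex x hu n0
  have hli' : LinearIndependent (KK x y u)
      (fun i => (⟨algebraMap F E (f i), by rw [hD]; trivial⟩ : dltL x y u D)) :=
    LinearIndependent.of_comp (Submodule.subtype _) hli
  have e4 := hli'.fintype_card_le_finrank
  rw [Fintype.card_fin] at e4
  exact e3.trans e4

/-- the rank of `L(N + D)` -/
theorem rank_sum (hF : IsFF F) (hg : IsGenus F g) (P0 : Pt F) {N : Dv F} {x y : F}
    (p : Pen N x y) {u : E} (hu : Transcendental F u)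
    (htop : IntermediateField.adjoin F {u} = ⊤) {D : Dv F} (hD : 1 ≤ ell D) {n k : ℕ}
    (hn : deg N = n) (hk : k ≤ n) (hk2 : k + 2 + ell (D - N) ≤ ell N + ell D) :
    k ≤ finrank (KK x y u) (dltL x y u (N + D)) := by
  have hfN := dlt_fd (E := E) hg P0 x y u N
  have hfD := dlt_fd (E := E) hg P0 x y u D
  have hfS := dlt_fd (E := E) hg P0 x y u (N + D)
  have hA : dltL x y u N ≠ ⊥ := by
    rw [Submodule.ne_bot_iff]
    refine ⟨algebraMap F E y, dlt_mem x y u p.hy, ?_⟩
    intro h
    exact p.y0 ((algebraMap F E).injective (by rw [h, map_zero]))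
  have hB : dltL x y u D ≠ ⊥ := by
    obtain ⟨s, hs, hs0⟩ := eff_exists_ne hD
    rw [Submodule.ne_bot_iff]
    refine ⟨algebraMap F E s, dlt_mem x y u hs, ?_⟩
    intro h
    exact hs0 ((algebraMap F E).injective (by rw [h, map_zero]))
  rcases lcd (prim hF p.tx p.gen hu htop) (dltL x y u N) (dltL x y u D) hA hB with h | h
  · have h1 : dltL x y u (N + D) = ⊤ := top_le_iff.1 (h ▸ dlt_mul_le x y u N D)
    exact hk.trans (rank_top hF hg P0 p hu h1 hn)
  · have h1 : finrank (KK x y u) ↥(dltL x y u N * dltL x y u D) ≤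
        finrank (KK x y u) (dltL x y u (N + D)) := Submodule.finrank_mono (dlt_mul_le x y u N D)
    have h2 := rank_ge (E := E) hg P0 p hu N
    have h3 := rank_ge (E := E) hg P0 p hu D
    rw [sub_self] at h2
    have h4 := dlt_ell_zero hF hg P0
    omega

open scoped IntermediateField.algebraAdjoinAdjoin in
/-- functions independent over `ℂ` stay independent over `ℂ(u)` -/
theorem kk_indep {u : E} (hu : Transcendental F u) {ι : Type} [Fintype ι] (w : ι → F)
    (hw : LinearIndependent ℂ w) :
    LinearIndependent (kk u) (fun i => algebraMap F E (w i)) := by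
  unfold kk
  rw [← LinearIndependent.iff_fractionRing (Algebra.adjoin ℂ ({u} : Set E)),
    Fintype.linearIndependent_iff]
  intro g hg
  have hmem : ∀ i, ∃ Q : ℂ[X], aeval u Q = (g i : E) := by
    intro i
    have h2 := Algebra.adjoin_singleton_eq_range_aeval ℂ u
    have h3 : (g i : E) ∈ (aeval u : ℂ[X] →ₐ[ℂ] E).range := by
      rw [← h2]
      exact SetLike.coe_mem _
    exact h3
  choose Q hQ using hmem
  have h1 : ∑ i, (Q i).map (algebraMap ℂ F) * C (w i) = 0 := by
    by_contra hne
    apply hu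
    refine ⟨_, hne, ?_⟩
    rw [map_sum, ← hg]
    refine Finset.sum_congr rfl fun i _ => ?_
    rw [map_mul, aeval_C, aeval_map_algebraMap, hQ i, Algebra.smul_def]
    rfl
  intro i
  have h3 : Q i = 0 := by
    ext n
    have h4 := congrArg (fun R : F[X] => R.coeff n) h1
    simp only [finsetSum_coeff, coeff_mul_C, coeff_map, coeff_zero] at h4
    have h5 := Fintype.linearIndependent_iff.mp hw (fun i => (Q i).coeff n) (by
      rw [← h4]
      refine Finset.sum_congr rfl fun i _ => ?_
      rw [Algebra.smul_def])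
    rw [h5 i, coeff_zero]
  have h4 := hQ i
  rw [h3, map_zero] at h4
  exact Subtype.ext h4.symm

theorem ell_le_kk (hg : IsGenus F g) (P0 : Pt F) {u : E} (hu : Transcendental F u) (B : Dv F) :
    ell B ≤ finrank (kk u) (Submodule.span (kk u) (algebraMap F E '' (LL B : Set F))) := by
  have := fin_of_genus hg P0 B
  have hfin := (cas_fin (E := E) (LL B) (kk u)).1
  let b := Module.finBasis ℂ (LL B)
  have hb : LinearIndependent ℂ (fun i => (b i : F)) :=
    b.linearIndependent.map' (LL B).subtype (Submodule.ker_subtype _)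
  have h1 := kk_indep hu _ hb
  have hli' : LinearIndependent (kk u)
      (fun i => (⟨algebraMap F E (b i : F), Submodule.subset_span ⟨_, (b i).2, rfl⟩⟩ :
        Submodule.span (kk u) (algebraMap F E '' (LL B : Set F)))) :=
    LinearIndependent.of_comp (Submodule.subtype _) h1
  have e4 := hli'.fintype_card_le_finrank
  rwa [Fintype.card_fin] at e4

/-- the counting lemma -/
theorem cnt_ell (hg : IsGenus F g) (P0 : Pt F) {N : Dv F} {x y : F} (p : Pen N x y) {u : E}
    (hu : Transcendental F u) (B : Dv F) :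
    ell B + finrank (KK x y u) (dltL x y u (N + B)) ≤ ell (N + B) := by
  have hfd := fin_of_genus hg P0 (N + B)
  have hfin := (cas_fin (E := E) (LL (N + B)) (kk u)).1
  have hle : B ≤ N + B := le_add_of_nonneg_left p.nn
  have h1 := cnt (kk u) (KK x y u) (kk_le x y u) (zz x y u) (z_mem x y u)
    (z_trans p.ty x hu)
    (Submodule.span (kk u) (algebraMap F E '' (LL B : Set F)))
    (Submodule.span (kk u) (algebraMap F E '' (LL (N + B) : Set F)))
    (Submodule.span_mono (Set.image_mono (LL_mono hle)))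
    (by
      intro v hv
      induction hv using Submodule.span_induction with
      | mem v hv =>
        obtain ⟨f, hf, rfl⟩ := hv
        have h7 : zz x y u * algebraMap F E f = algebraMap F E (y * f) +
            (⟨u, u_mem_kk u⟩ : kk u) • algebraMap F E (x * f) := by
          unfold zz
          rw [map_mul, map_mul, IntermediateField.smul_def]
          simp only [smul_eq_mul]
          ring
        rw [h7]
        exact Submodule.add_mem _ (Submodule.subset_span ⟨_, dlt_LL_mul p.hy hf, rfl⟩)
          (Submodule.smul_mem _ _ (Submodule.subset_span ⟨_, dlt_LL_mul p.hx hf, rfl⟩))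
      | zero => rw [mul_zero]; exact Submodule.zero_mem _
      | add v w _ _ h1 h2 => rw [mul_add]; exact Submodule.add_mem _ h1 h2
      | smul c v _ h =>
        rw [mul_smul_comm]
        exact Submodule.smul_mem _ _ h)
  rw [cas_span _ _ _ (kk_le x y u)] at h1
  have h2 := ell_le_kk (E := E) hg P0 hu B
  have h3 := (cas_fin (E := E) (LL (N + B)) (kk u)).2
  unfold dltL
  unfold ell at h2 ⊢
  omega

end

/-- the sum lemma -/
theorem sum_ell (hF : IsFF F) (hg : IsGenus F g) (P0 : Pt F) {N : Dv F} {x y : F}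
    (p : Pen N x y) {D : Dv F} (hD : 1 ≤ ell D) {n k : ℕ} (hn : deg N = n) (hk : k ≤ n)
    (hk2 : k + 2 + ell (D - N) ≤ ell N + ell D) : ell D + k ≤ ell (N + D) := by
  have h1 := rank_sum (E := RatFunc F) hF hg P0 p RatFunc.transcendental_X RatFunc.adjoin_X hD
    hn hk hk2
  have h2 := cnt_ell (E := RatFunc F) hg P0 p RatFunc.transcendental_X D
  omega

/-- growth of the multiples -/
theorem grow (hF : IsFF F) (hg : IsGenus F g) (P0 : Pt F) {N : Dv F} {x y : F}
    (p : Pen N x y) {a r : ℕ} (ha : deg N = a) (hr : r + 1 ≤ ell N) (i : ℕ) :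
    ell (i • N) + min a ((i + 1) * (r - 1) + 1) ≤ ell ((i + 1) • N) := by
  have ha1 : 1 ≤ a := by
    have := p.d1
    omega
  have h1 := dlt (E := RatFunc F) hF hg P0 p.nn ha ha1 hr p.hx p.hy p.hex p.tx p.gen
    RatFunc.transcendental_X RatFunc.adjoin_X (i + 1)
  have h2 := cnt_ell (E := RatFunc F) hg P0 p RatFunc.transcendental_X (i • N)
  have h3 : N + i • N = (i + 1) • N := by rw [succ_nsmul, add_comm]
  rw [h3] at h2
  unfold dltL at h2
  omega

end

end Pool.H24.RR
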